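import Pool.Agent.Lib.MP_c8ac39_lc.Bridge

/-!
Relative to one measurable cardinal, it is consistent with ZFC that there is a measurable
cardinal `k` at which the Halpern-Lauchli statement holds in all finite dimensions and for
fewer than `k` colours.
-/

namespace Pool.Agent.Results.MP_c8ac39_lc.Main

open Pool.Agent.Lib.MP_2739cb_lc Pool.Agent.Lib.MP_c8ac39_lc

universe u

theorem result (κ : Cardinal.{u}) (hκ : IsMeasurable κ) :
    ∃ (M : Type (u + 1)) (E : M → M → Prop), IsZFC E ∧ ∃ k : M, IsMeasurableIn E k ∧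
      ∀ δ σ : M, IsFinOrd E δ → (∃ x, E x δ) → E σ k → (∃ x, E x σ) → HL E δ σ k :=
  main hκ

end Pool.Agent.Results.MP_c8ac39_lc.Main
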